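import Mathlib

/-!
# There is no strong external difference family with `λ = 1`, `m ≥ 3`, `k ≥ 2` in any group

For disjoint sets `A`, `B` in a finite group `G` such that every `g ≠ 1` is uniquely of the form
`a b⁻¹`, the group matrices `P` of `A` and `Q` of `B` satisfy `P Q = J - 1`, hence
`Q P = J - 1`, so that every `g ≠ 1` is also uniquely of the form `b⁻¹ a`. With this, the
classical argument for abelian groups works in every group.
-/

set_option autoImplicit false

open Finset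

namespace Pool.Agent.Results.MP_2fa8e1_co.NoSEDFLambdaOne

variable {G : Type*} [Group G] [Fintype G] [DecidableEq G]

/-- `A` is an `(n,m,k,lam)`-SEDF (strong external difference family) in the finite group `G` of
order `n`: the `m` sets `A i` are pairwise disjoint, have `k` elements each and, for every `i`,
every `g ≠ 1` occurs exactly `lam` times as `x * y⁻¹` with `x ∈ A i`, `y ∈ A j`, `j ≠ i`. -/
structure IsSEDF (n m k lam : ℕ) (A : Fin m → Finset G) : Prop where
  order : Fintype.card G = n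
  card : ∀ i, (A i).card = k
  disj : ∀ i j, i ≠ j → Disjoint (A i) (A j)
  count : ∀ i, ∀ g : G, g ≠ 1 →
    ∑ j ∈ univ.erase i, ((A i ×ˢ A j).filter fun p => p.1 * p.2⁻¹ = g).card = lam

/-- the group matrix of `A` -/
def P (A : Finset G) : Matrix G G ℚ := fun g h => if g⁻¹ * h ∈ A then 1 else 0

/-- the group matrix of the inverses of `B` -/
def Q (B : Finset G) : Matrix G G ℚ := fun g h => if h⁻¹ * g ∈ B then 1 else 0

/-- the all-one matrix -/
def J : Matrix G G ℚ := fun _ _ => 1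

lemma P_mul_Q (A B : Finset G) (g h : G) :
    (P A * Q B) g h = (((A ×ˢ B).filter fun p => p.1 * p.2⁻¹ = g⁻¹ * h).card : ℚ) := by
  rw [Matrix.mul_apply]
  have h1 : ∀ k, P A g k * Q B k h = if g⁻¹ * k ∈ A ∧ h⁻¹ * k ∈ B then 1 else 0 := by
    intro k
    simp only [P, Q]
    split_ifs <;> simp_all
  simp only [h1]
  rw [Finset.sum_boole]
  congr 1
  refine Finset.card_bij (fun k _ => (g⁻¹ * k, h⁻¹ * k)) ?_ ?_ ?_
  · intro k hk
    simp only [mem_filter, mem_univ, true_and] at hk
    simp only [mem_filter, mem_product]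
    refine ⟨hk, ?_⟩
    group
  · intro k _ k' _ hkk
    have := congrArg Prod.fst hkk
    exact mul_left_cancel this
  · rintro ⟨a, b⟩ hab
    simp only [mem_filter, mem_product] at hab
    refine ⟨g * a, ?_, ?_⟩
    · simp only [mem_filter, mem_univ, true_and]
      have h2 : h⁻¹ * (g * a) = b := by
        have h3 : g * a = h * b := by
          have := hab.2
          rw [mul_inv_eq_iff_eq_mul] at this
          rw [this]
          group
        rw [h3]; group
      rw [h2]
      refine ⟨?_, hab.1.2⟩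
      simpa using hab.1.1
    · have h3 : g * a = h * b := by
        have := hab.2
        rw [mul_inv_eq_iff_eq_mul] at this
        rw [this]
        group
      ext
      · simp
      · show h⁻¹ * (g * a) = b
        rw [h3]; group

lemma Q_mul_P (A B : Finset G) (g h : G) :
    (Q B * P A) g h = (((A ×ˢ B).filter fun p => p.2⁻¹ * p.1 = g⁻¹ * h).card : ℚ) := by
  rw [Matrix.mul_apply]
  have h1 : ∀ k, Q B g k * P A k h = if k⁻¹ * h ∈ A ∧ k⁻¹ * g ∈ B then 1 else 0 := by
    intro k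
    simp only [P, Q]
    split_ifs <;> simp_all
  simp only [h1]
  rw [Finset.sum_boole]
  congr 1
  refine Finset.card_bij (fun k _ => (k⁻¹ * h, k⁻¹ * g)) ?_ ?_ ?_
  · intro k hk
    simp only [mem_filter, mem_univ, true_and] at hk
    simp only [mem_filter, mem_product]
    refine ⟨hk, ?_⟩
    group
  · intro k _ k' _ hkk
    have := congrArg Prod.fst hkk
    exact inv_injective (mul_right_cancel this)
  · rintro ⟨a, b⟩ hab
    simp only [mem_filter, mem_product] at hab
    have h3 : h * a⁻¹ = g * b⁻¹ := by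
      have := hab.2
      rw [inv_mul_eq_iff_eq_mul] at this
      rw [this]
      group
    refine ⟨h * a⁻¹, ?_, ?_⟩
    · simp only [mem_filter, mem_univ, true_and]
      constructor
      · have : (h * a⁻¹)⁻¹ * h = a := by group
        rw [this]; exact hab.1.1
      · have : (h * a⁻¹)⁻¹ * g = b := by rw [h3]; group
        rw [this]; exact hab.1.2
    · ext
      · show (h * a⁻¹)⁻¹ * h = a
        group
      · show (h * a⁻¹)⁻¹ * g = b
        rw [h3]; group

lemma P_mul_J (A : Finset G) : P A * J = (A.card : ℚ) • (J : Matrix G G ℚ) := by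
  ext g h
  rw [Matrix.mul_apply, Matrix.smul_apply]
  simp only [P, J, mul_one, smul_eq_mul]
  rw [Finset.sum_boole]
  congr 1
  refine Finset.card_bij (fun k _ => g⁻¹ * k) ?_ ?_ ?_
  · intro k hk
    simpa using hk
  · intro k _ k' _ hkk
    exact mul_left_cancel hkk
  · intro a ha
    exact ⟨g * a, by simpa using ha, by simp⟩

lemma J_mul_P (A : Finset G) : J * P A = (A.card : ℚ) • (J : Matrix G G ℚ) := by
  ext g h
  rw [Matrix.mul_apply, Matrix.smul_apply]
  simp only [P, J, one_mul, smul_eq_mul, mul_one]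
  rw [Finset.sum_boole]
  congr 1
  refine Finset.card_bij (fun k _ => k⁻¹ * h) ?_ ?_ ?_
  · intro k hk
    simpa using hk
  · intro k _ k' _ hkk
    exact inv_injective (mul_right_cancel hkk)
  · intro a ha
    exact ⟨h * a⁻¹, by simpa using ha, by simp⟩

lemma J_mul_J : (J : Matrix G G ℚ) * J = (Fintype.card G : ℚ) • J := by
  ext g h
  rw [Matrix.mul_apply, Matrix.smul_apply]
  simp [J]

/-- if `P Q = J - 1` then `Q P = J - 1` -/
lemma flip_matrix (A B : Finset G) (hG : 2 ≤ Fintype.card G)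
    (h : P A * Q B = (J : Matrix G G ℚ) - 1) : Q B * P A = (J : Matrix G G ℚ) - 1 := by
  set n : ℚ := (Fintype.card G : ℚ) with hn
  have hn1 : n - 1 ≠ 0 := by
    have : (2 : ℚ) ≤ n := by rw [hn]; exact_mod_cast hG
    intro h0
    linarith
  set c : ℚ := (n - 1)⁻¹ with hc
  set V : Matrix G G ℚ := c • J - 1 with hV
  have hUV : ((J : Matrix G G ℚ) - 1) * V = 1 := by
    rw [hV, sub_mul, mul_sub, mul_smul_comm, J_mul_J, one_mul, mul_one, smul_smul]
    have : c * n = 1 + c := by
      rw [hc]; field_simp; ring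
    rw [← hn, this, add_smul, one_smul]
    abel
  have hVU : V * ((J : Matrix G G ℚ) - 1) = 1 := by
    rw [hV, sub_mul, mul_sub, smul_mul_assoc, J_mul_J, one_mul, mul_one, smul_smul]
    have : c * n = 1 + c := by
      rw [hc]; field_simp; ring
    rw [← hn, this, add_smul, one_smul]
    abel
  have hVP : V * P A = P A * V := by
    rw [hV, sub_mul, mul_sub, one_mul, mul_one, smul_mul_assoc, mul_smul_comm, J_mul_P, P_mul_J]
  have h1 : P A * (Q B * V) = 1 := by rw [← mul_assoc, h, hUV]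
  have h2 : (Q B * V) * P A = 1 := mul_eq_one_comm.1 h1
  have h3 : (Q B * P A) * V = 1 := by
    rw [mul_assoc, ← hVP, ← mul_assoc, h2]
  calc Q B * P A = (Q B * P A) * (V * ((J : Matrix G G ℚ) - 1)) := by rw [hVU, mul_one]
    _ = ((Q B * P A) * V) * ((J : Matrix G G ℚ) - 1) := by rw [mul_assoc (Q B * P A)]
    _ = (J : Matrix G G ℚ) - 1 := by rw [h3, one_mul]

/-- unique factorisations on the other side -/
lemma flip_unique (A B : Finset G) (hG : 2 ≤ Fintype.card G) (hd : Disjoint A B)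
    (h : ∀ g : G, g ≠ 1 → ((A ×ˢ B).filter fun p => p.1 * p.2⁻¹ = g).card = 1) :
    ∀ a ∈ A, ∀ b ∈ B, ∀ a' ∈ A, ∀ b' ∈ B, b⁻¹ * a = b'⁻¹ * a' → a = a' ∧ b = b' := by
  have h0 : ((A ×ˢ B).filter fun p => p.1 * p.2⁻¹ = 1).card = 0 := by
    rw [Finset.card_eq_zero, Finset.filter_eq_empty_iff]
    rintro ⟨a, b⟩ hab h1
    rw [mem_product] at hab
    rw [mul_inv_eq_one] at h1
    exact Finset.disjoint_left.1 hd hab.1 (by rw [show a = b from h1]; exact hab.2)
  have hPQ : P A * Q B = (J : Matrix G G ℚ) - 1 := by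
    ext g g'
    rw [P_mul_Q, Matrix.sub_apply, Matrix.one_apply]
    by_cases hg : g = g'
    · subst hg
      rw [inv_mul_cancel, h0]
      simp [J]
    · rw [h _ (fun h1 => hg (inv_mul_eq_one.1 h1))]
      simp [J, hg]
  have hQP := flip_matrix A B hG hPQ
  intro a ha b hb a' ha' b' hb' hab
  have h1 := congrFun (congrFun hQP 1) (b⁻¹ * a)
  rw [Q_mul_P, Matrix.sub_apply] at h1
  have h2 : (((A ×ˢ B).filter fun p => p.2⁻¹ * p.1 = (1 : G)⁻¹ * (b⁻¹ * a)).card : ℚ) ≤ 1 := by
    rw [h1, Matrix.one_apply]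
    simp only [J]
    split_ifs <;> norm_num
  have h3 : ((A ×ˢ B).filter fun p => p.2⁻¹ * p.1 = (1 : G)⁻¹ * (b⁻¹ * a)).card ≤ 1 := by
    exact_mod_cast h2
  rw [Finset.card_le_one] at h3
  have h4 := h3 (a, b) (by simp [ha, hb]) (a', b') (by simp [ha', hb', hab])
  exact ⟨congrArg Prod.fst h4, congrArg Prod.snd h4⟩

/-- No finite group, abelian or not, contains an `(n,m,k,1)`-SEDF with `m ≥ 3` and `k ≥ 2`. -/
theorem result (n m k : ℕ) (hm : 3 ≤ m) (hk : 2 ≤ k) (A : Fin m → Finset G) :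
    ¬ IsSEDF n m k 1 A := by
  intro hA
  obtain ⟨-, hcard, hdisj, hcount⟩ := hA
  -- the union of the other sets
  let B : Fin m → Finset G := fun i => (univ.erase i).biUnion A
  have hB : ∀ i, Disjoint (A i) (B i) := by
    intro i
    rw [Finset.disjoint_biUnion_right]
    intro j hj
    exact hdisj i j (Finset.ne_of_mem_erase hj).symm
  have hmemB : ∀ i j, i ≠ j → ∀ x ∈ A j, x ∈ B i := by
    intro i j hij x hx
    exact Finset.mem_biUnion.2 ⟨j, Finset.mem_erase.2 ⟨hij.symm, mem_univ j⟩, hx⟩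
  have hcountB : ∀ i, ∀ g : G, g ≠ 1 →
      ((A i ×ˢ B i).filter fun p => p.1 * p.2⁻¹ = g).card = 1 := by
    intro i g hg
    rw [← hcount i g hg]
    have h1 : (A i ×ˢ B i).filter (fun p => p.1 * p.2⁻¹ = g) =
        (univ.erase i).biUnion fun j => (A i ×ˢ A j).filter fun p => p.1 * p.2⁻¹ = g := by
      ext ⟨x, y⟩
      simp only [mem_filter, mem_product, mem_biUnion, B]
      constructor
      · rintro ⟨⟨hx, j, hj, hy⟩, h2⟩
        exact ⟨j, hj, ⟨hx, hy⟩, h2⟩
      · rintro ⟨j, hj, ⟨hx, hy⟩, h2⟩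
        exact ⟨⟨hx, j, hj, hy⟩, h2⟩
    rw [h1, Finset.card_biUnion]
    intro j _ j' _ hjj
    rw [Function.onFun, Finset.disjoint_left]
    rintro ⟨x, y⟩ h2 h3
    simp only [mem_filter, mem_product] at h2 h3
    exact Finset.disjoint_left.1 (hdisj j j' hjj) h2.1.2 h3.1.2
  -- two elements of `A 0`
  let i0 : Fin m := ⟨0, by omega⟩
  let i1 : Fin m := ⟨1, by omega⟩
  let i2 : Fin m := ⟨2, by omega⟩
  have h01 : i0 ≠ i1 := by simp [i0, i1]
  have h02 : i0 ≠ i2 := by simp [i0, i2]
  have h12 : i1 ≠ i2 := by simp [i1, i2]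
  obtain ⟨a, ha, a', ha', hne⟩ := Finset.one_lt_card.1 (show 1 < (A i0).card by
    rw [hcard]; omega)
  have hG : 2 ≤ Fintype.card G := by
    have : Nontrivial G := ⟨a, a', hne⟩
    exact Fintype.one_lt_card
  have hg : a * a'⁻¹ ≠ 1 := fun h => hne (mul_inv_eq_one.1 h)
  -- unique factorisations
  have hU := flip_unique (A i0) (B i0) hG (hB i0) (hcountB i0)
  have hex : ∀ i, ∃ x ∈ A i, ∃ y ∈ B i, x * y⁻¹ = a * a'⁻¹ := by
    intro i
    obtain ⟨⟨x, y⟩, hxy⟩ := Finset.card_pos.1 (show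
      0 < ((A i ×ˢ B i).filter fun p => p.1 * p.2⁻¹ = a * a'⁻¹).card by
        rw [hcountB i _ hg]; norm_num)
    simp only [mem_filter, mem_product] at hxy
    exact ⟨x, hxy.1.1, y, hxy.1.2, hxy.2⟩
  -- if `x ∈ A i` with `i ≠ 0` then `y ∈ A 0`
  have key : ∀ i, i0 ≠ i → ∃ x ∈ A i, ∃ y ∈ A i0, x * y⁻¹ = a * a'⁻¹ := by
    intro i hi
    obtain ⟨x, hx, y, hy, hxy⟩ := hex i
    refine ⟨x, hx, y, ?_, hxy⟩
    obtain ⟨j, hj, hyj⟩ := Finset.mem_biUnion.1 hy
    have hji : j ≠ i := Finset.ne_of_mem_erase hj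
    by_cases hj0 : i0 = j
    · rw [hj0]; exact hyj
    · exfalso
      have h1 : x⁻¹ * a = y⁻¹ * a' := by
        have h2 : x = a * a'⁻¹ * y := by rw [← hxy]; group
        rw [h2]; group
      exact hne (hU a ha x (hmemB i0 i hi x hx) a' ha' y (hmemB i0 j hj0 y hyj) h1).1
  obtain ⟨x, hx, y, hy, hxy⟩ := key i1 h01
  obtain ⟨x', hx', y', hy', hxy'⟩ := key i2 h02
  -- now two representations `y x⁻¹` of the inverse
  have h1 := hcountB i0 (a * a'⁻¹)⁻¹ (by rw [Ne, inv_eq_one]; exact hg)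
  have h2 : ((A i0 ×ˢ B i0).filter fun p => p.1 * p.2⁻¹ = (a * a'⁻¹)⁻¹).card ≤ 1 := h1.le
  rw [Finset.card_le_one] at h2
  have h3 := h2 (y, x) (by
    simp only [mem_filter, mem_product]
    exact ⟨⟨hy, hmemB i0 i1 h01 x hx⟩, by rw [← hxy]; group⟩) (y', x') (by
    simp only [mem_filter, mem_product]
    exact ⟨⟨hy', hmemB i0 i2 h02 x' hx'⟩, by rw [← hxy']; group⟩)
  have h4 : x = x' := congrArg Prod.snd h3
  rw [← h4] at hx'
  exact Finset.disjoint_left.1 (hdisj i1 i2 h12) hx hx'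

end Pool.Agent.Results.MP_2fa8e1_co.NoSEDFLambdaOne
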